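import Pool.Agent.H854R3.CR.Stmts
import Pool.Agent.H854R3.NE.Dens3

/-! Task Mat of the project H854-CR. -/

set_option autoImplicit false

namespace Pool.Agent.H66R3.CR

open Polynomial Pool.Agent.H854R3.CR Pool.Agent.H854R3.NE

theorem identity_extJ {Q : Type} [Ring Q] {m : ℕ} (nn : Equiv.Perm (Fin m) → ℤ) {C : Type} [Ring C]
    (J : Set C) (ρ : C →+* Q) (hid : MId J m nn)
    (K : Set Q) (hK : ∀ κ ∈ K, ∀ κ' ∈ K, κ * κ' = κ' * κ) (hKρ : ∀ κ ∈ K, ∀ r, κ * ρ r = ρ r * κ)
    (t : Fin m → Q)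
    (ht : ∀ j, t j ∈ AddSubgroup.closure {z | ∃ r ∈ J, ∃ κ ∈ K, z = ρ r * κ}) :
    ∑ π, nn π • (List.ofFn fun k => t (π k)).prod = 0 := by
  rw [← mlm_apply]
  refine multilin_closure _ _ ?_ t ht
  intro X hX
  choose r hr κ hκ hX using hX
  rw [mlm_apply]
  have h1 : ∀ π : Equiv.Perm (Fin m), (List.ofFn fun k => X (π k)).prod =
      ρ (List.ofFn fun k => r (π k)).prod * (List.ofFn κ).prod := by
    intro π
    have e1 : (List.ofFn fun k => X (π k)) = (List.ofFn π).map fun i => ρ (r i) * κ i := by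
      rw [List.map_ofFn]
      congr 1
      funext k
      exact hX (π k)
    rw [e1, prod_split (fun i => ρ (r i)) κ (fun i j => hKρ _ (hκ i) _)]
    congr 1
    · rw [map_list_prod, List.map_ofFn, List.map_ofFn]
      rfl
    · have e2 : ((List.ofFn π).map κ).Perm (List.ofFn κ) := by
        rw [List.map_ofFn]
        exact Equiv.Perm.ofFn_comp_perm π κ
      apply List.Perm.prod_eq' e2
      rw [List.map_ofFn, List.pairwise_ofFn]
      intro i j _
      exact hK _ (hκ _) _ (hκ _)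
  simp only [h1]
  have h2 := congrArg (fun z => ρ z * (List.ofFn κ).prod) (hid r hr)
  simp only [map_sum, map_zsmul, Finset.sum_mul, zero_mul, map_zero] at h2
  rw [← h2]
  apply Finset.sum_congr rfl
  intro π _
  rw [smul_mul_assoc]

theorem finite_of_identityJ {R M : Type} [Ring R] [AddCommGroup M] [Module R M]
    [IsSimpleModule R M] [DecidableEq (Module.End R M)] {m : ℕ}
    (nn : Equiv.Perm (Fin m) → ℤ) (π0 : Equiv.Perm (Fin m)) (h0 : nn π0 = 1)
    (J : Set R) (hJ : ∀ u ∈ J, ∀ t, u * t ∈ J) (hJM : ∀ v w : M, v ≠ 0 → ∃ u ∈ J, u • v = w)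
    (hid : MId J m nn) :
    Module.Finite (Module.End R M) M := by
  classical
  by_contra hinf
  have h1 : ((m + 1 : ℕ) : Cardinal) ≤ Module.rank (Module.End R M) M := by
    apply le_trans (Cardinal.natCast_lt_aleph0).le
    rw [← not_lt]
    intro h
    exact hinf (Module.rank_lt_aleph0_iff.1 h)
  obtain ⟨s, hs, hli⟩ := exists_finset_linearIndependent_of_le_rank h1
  let e : Fin (m + 1) ≃ s := (Fintype.equivFinOfCardEq (by simpa using hs)).symm
  let v : Fin (m + 1) → M := fun i => (e i : M)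
  have hv : LinearIndependent (Module.End R M) v := by
    have h2 : LinearIndependent (Module.End R M) (fun i : s => (i : M)) := hli
    exact h2.comp e e.injective
  have hf : ∀ k : Fin m, ∃ f : M →ₗ[Module.End R M] M,
      ∀ j, f (v j) = if j = k.succ then v k.succ else 0 := by
    intro k
    obtain ⟨g, hg⟩ := LinearMap.exists_extend ((Module.Basis.span hv).constr ℤ
      (fun j => if j = k.succ then v k.succ else 0))
    refine ⟨g, fun j => ?_⟩
    have h3 := congrArg (fun h => h (Module.Basis.span hv j)) hg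
    simp only [LinearMap.comp_apply, Module.Basis.constr_basis] at h3
    rw [← h3]
    congr 1
    simp [Module.Basis.span_apply]
  choose f hf using hf
  have hr : ∀ k : Fin m, ∃ r ∈ J, ∀ j, r • v j = if j = k.succ then v k.castSucc else 0 := by
    intro k
    obtain ⟨r, hr⟩ := jacobson_density (f k) (Finset.univ.image v)
    obtain ⟨u, huJ, hu⟩ := hJM (v k.succ) (v k.castSucc) (hv.ne_zero _)
    refine ⟨u * r, hJ u huJ r, fun j => ?_⟩
    rw [mul_smul, ← hr (v j) (Finset.mem_image_of_mem v (Finset.mem_univ j)), hf]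
    by_cases hj : j = k.succ
    · rw [if_pos hj, if_pos hj, hu]
    · rw [if_neg hj, if_neg hj, smul_zero]
  choose r hrJ hr using hr
  have h2 := hid (fun j => r (π0⁻¹ j)) (fun j => hrJ _)
  have h3 := congrArg (fun z => z • v (Fin.last m)) h2
  simp only [Finset.sum_smul, zero_smul] at h3
  have h4 : ∀ π : Equiv.Perm (Fin m),
      (nn π • (List.ofFn fun k => r (π0⁻¹ (π k))).prod) • v (Fin.last m) =
      if π = π0 then v 0 else 0 := by
    intro π
    rw [smul_assoc]
    have h5 := chain_prod v r hr (π0⁻¹ * π)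
    have h6 : (List.ofFn fun k => r (π0⁻¹ (π k))).prod • v (Fin.last m) =
      if π0⁻¹ * π = 1 then v 0 else 0 := h5
    rw [h6]
    by_cases h7 : π = π0
    · rw [if_pos h7, if_pos (by rw [h7, inv_mul_cancel]), h7, h0, one_smul]
    · rw [if_neg h7, if_neg, smul_zero]
      intro h8
      exact h7 (inv_mul_eq_one.1 h8).symm
  rw [Finset.sum_congr rfl (fun π _ => h4 π), Finset.sum_ite_eq' Finset.univ π0,
    if_pos (Finset.mem_univ _)] at h3
  exact hv.ne_zero 0 h3

theorem closure_mul_mem {Q : Type} [Ring Q] {A B S : Set Q} (h : ∀ a ∈ A, ∀ b ∈ B, a * b ∈ S)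
    {x y : Q} (hx : x ∈ AddSubgroup.closure A) (hy : y ∈ AddSubgroup.closure B) :
    x * y ∈ AddSubgroup.closure S := by
  induction hx using AddSubgroup.closure_induction with
  | mem a ha =>
    induction hy using AddSubgroup.closure_induction with
    | mem b hb => exact AddSubgroup.subset_closure (h a ha b hb)
    | zero => rw [mul_zero]; exact zero_mem _
    | add u v _ _ hu hv => rw [mul_add]; exact add_mem hu hv
    | neg u _ hu => rw [mul_neg]; exact neg_mem hu
  | zero => rw [zero_mul]; exact zero_mem _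
  | add u v _ _ hu hv => rw [add_mul]; exact add_mem hu hv
  | neg u _ hu => rw [neg_mul]; exact neg_mem hu

theorem exists_matrixJ {C : Type} [Ring C] (I : TwoSidedIdeal C) {m : ℕ}
    (nn : Equiv.Perm (Fin m) → ℤ) (π0 : Equiv.Perm (Fin m)) (h0 : nn π0 = 1)
    (hid : MId (I : Set C) m nn)
    {β : C} (hβI : β ∈ I) (hβ : ∀ k, β ^ k ≠ 0) :
    ∃ (K : Type) (_ : Field K) (s : ℕ) (Θ : C →+* Matrix (Fin s) (Fin s) K), ∀ k, Θ β ^ k ≠ 0 := by
  classical
  obtain ⟨M, i1, i2, hsimp, hM⟩ := exists_simple hβ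
  let ρ : C[X] →+* AddMonoid.End M := Module.toAddMonoidEnd C[X] M
  have hρ : ∀ q (v : M), ρ q v = q • v := fun q v => rfl
  obtain ⟨X', hX1, hX2, hX3⟩ := exists_comm_max (Set.range ρ)
  have hone : (1 : AddMonoid.End M) ∈ X' :=
    hX3 1 (fun s _ => by rw [one_mul, mul_one]) (fun s _ => by rw [one_mul, mul_one])
  have hmul : ∀ a ∈ X', ∀ b ∈ X', a * b ∈ X' := by
    intro a ha b hb
    apply hX3
    · intro s hs
      rw [mul_assoc, hX1 b hb s hs, ← mul_assoc, hX1 a ha s hs, mul_assoc]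
    · intro s hs
      rw [mul_assoc, hX2 b hb s hs, ← mul_assoc, hX2 a ha s hs, mul_assoc]
  have hX : ρ X ∈ X' := by
    apply hX3
    · rintro _ ⟨q, rfl⟩
      rw [← map_mul, ← map_mul, X_mul]
    · intro ψ hψ
      exact (hX1 ψ hψ _ ⟨X, rfl⟩).symm
  have hmove : ∀ (r r' : C), ∀ κ ∈ X', ∀ κ' ∈ X',
      ((ρ.comp Polynomial.C) r * κ) * ((ρ.comp Polynomial.C) r' * κ') =
        (ρ.comp Polynomial.C) (r * r') * (κ * κ') := by
    intro r r' κ hκ κ' hκ'
    have e := hX1 κ hκ ((ρ.comp Polynomial.C) r') ⟨Polynomial.C r', rfl⟩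
    rw [map_mul, mul_assoc, ← mul_assoc κ, e]
    simp only [mul_assoc]
  let G : Submonoid (AddMonoid.End M) :=
    { carrier := {z | ∃ r : C, ∃ κ ∈ X', z = (ρ.comp Polynomial.C) r * κ}
      mul_mem' := by
        rintro _ _ ⟨r, κ, hκ, rfl⟩ ⟨r', κ', hκ', rfl⟩
        exact ⟨r * r', κ * κ', hmul _ hκ _ hκ', hmove r r' κ hκ κ' hκ'⟩
      one_mem' := ⟨1, 1, hone, by rw [map_one, one_mul]⟩ }
  let T : Subring (AddMonoid.End M) := Subring.closure (G : Set (AddMonoid.End M))
  have hT : ∀ t ∈ T, t ∈ AddSubgroup.closure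
      {z | ∃ r : C, ∃ κ ∈ X', z = (ρ.comp Polynomial.C) r * κ} := by
    intro t ht
    have h1 := Subring.mem_closure_iff.1 ht
    rw [Submonoid.closure_eq] at h1
    exact h1
  have hCT : ∀ r : C, ρ (Polynomial.C r) ∈ T := fun r =>
    Subring.subset_closure ⟨r, 1, hone, by rw [mul_one]; rfl⟩
  have hXT : ∀ κ ∈ X', κ ∈ T := fun κ hκ =>
    Subring.subset_closure ⟨1, κ, hκ, by rw [map_one, one_mul]⟩
  have hρT : ∀ q : C[X], ρ q ∈ T := by
    intro q
    induction q using Polynomial.induction_on with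
    | C a => exact hCT a
    | add p q hp hq => rw [map_add]; exact add_mem hp hq
    | monomial n a _ =>
      rw [map_mul, map_pow]
      exact mul_mem (hCT a) (pow_mem (hXT _ hX) _)
  -- the ideal
  let SI : Set (AddMonoid.End M) := {z | ∃ r ∈ (I : Set C), ∃ κ ∈ X', z = (ρ.comp Polynomial.C) r * κ}
  let TI : AddSubgroup (AddMonoid.End M) := AddSubgroup.closure SI
  have hTIT : ∀ u ∈ TI, u ∈ T := by
    have h1 : TI ≤ T.toAddSubgroup := by
      refine (AddSubgroup.closure_le _).2 ?_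
      rintro _ ⟨r, -, κ, hκ, rfl⟩
      exact T.mul_mem (hCT r) (hXT κ hκ)
    exact fun u hu => h1 hu
  have hright : ∀ u ∈ TI, ∀ t ∈ T, u * t ∈ TI := by
    intro u hu t ht
    refine closure_mul_mem ?_ hu (hT t ht)
    rintro _ ⟨r, hr, κ, hκ, rfl⟩ _ ⟨r', κ', hκ', rfl⟩
    exact ⟨r * r', I.mul_mem_right _ _ hr, κ * κ', hmul _ hκ _ hκ', hmove r r' κ hκ κ' hκ'⟩
  have hleft : ∀ t ∈ T, ∀ u ∈ TI, t * u ∈ TI := by
    intro t ht u hu
    refine closure_mul_mem ?_ (hT t ht) hu
    rintro _ ⟨r', κ', hκ', rfl⟩ _ ⟨r, hr, κ, hκ, rfl⟩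
    exact ⟨r' * r, I.mul_mem_left _ _ hr, κ' * κ, hmul _ hκ' _ hκ, hmove r' r κ' hκ' κ hκ⟩
  have hsT : IsSimpleModule T M := by
    rw [isSimpleModule_iff_toSpanSingleton_surjective]
    obtain ⟨hn, hs⟩ := isSimpleModule_iff_toSpanSingleton_surjective.1 hsimp
    refine ⟨hn, fun x hx y => ?_⟩
    obtain ⟨q, hq⟩ := hs x hx y
    exact ⟨⟨ρ q, hρT q⟩, hq⟩
  have hsT' := (isSimpleModule_iff_toSpanSingleton_surjective.1 hsT).2
  -- TI acts transitively
  have htrans : ∀ v w : M, v ≠ 0 → ∃ u ∈ {t : T | (t : AddMonoid.End M) ∈ TI}, u • v = w := by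
    intro v w hv
    let N : Submodule T M :=
      { carrier := {w | ∃ u ∈ TI, u v = w}
        add_mem' := by
          rintro _ _ ⟨u, hu, rfl⟩ ⟨u', hu', rfl⟩
          exact ⟨u + u', add_mem hu hu', rfl⟩
        zero_mem' := ⟨0, zero_mem _, rfl⟩
        smul_mem' := by
          rintro t _ ⟨u, hu, rfl⟩
          exact ⟨t * u, hleft t t.2 u hu, rfl⟩ }
    have hN : N = ⊤ := by
      rcases eq_bot_or_eq_top N with h | h
      · exfalso
        obtain ⟨x, hx⟩ := hM 1
        apply hx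
        obtain ⟨t, ht⟩ := hsT' v hv x
        have h1 : (ρ (Polynomial.C β) * (t : AddMonoid.End M)) ∈ TI :=
          hright _ (AddSubgroup.subset_closure ⟨β, hβI, 1, hone, by rw [mul_one]; rfl⟩) _ t.2
        have h2 : (ρ (Polynomial.C β) * (t : AddMonoid.End M)) v ∈ N := ⟨_, h1, rfl⟩
        rw [h, Submodule.mem_bot] at h2
        have h3 : (t : AddMonoid.End M) v = x := ht
        rw [pow_one, ← hρ, ← h3]
        exact h2
      · exact h
    have h1 : w ∈ N := by rw [hN]; trivial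
    obtain ⟨u, hu, huw⟩ := h1
    exact ⟨⟨u, hTIT u hu⟩, hu, huw⟩
  -- endomorphisms
  let toE : Module.End T M → AddMonoid.End M := fun φ => φ.toAddMonoidHom
  have hend : ∀ φ : Module.End T M, toE φ ∈ X' := by
    intro φ
    have h1 : ∀ t ∈ T, toE φ * t = t * toE φ := by
      intro t ht
      ext v
      exact φ.map_smul (⟨t, ht⟩ : T) v
    apply hX3
    · rintro _ ⟨q, rfl⟩
      exact h1 _ (hρT q)
    · intro ψ hψ
      exact h1 _ (hXT ψ hψ)
  have hcomm : ∀ φ ψ : Module.End T M, φ * ψ = ψ * φ := by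
    intro φ ψ
    have h1 := hX2 _ (hend φ) _ (hend ψ)
    ext v
    exact congrArg (fun f : AddMonoid.End M => f v) h1
  have hidT : MId {t : T | (t : AddMonoid.End M) ∈ TI} m nn := by
    intro t htI
    have h1 := identity_extJ nn (I : Set C) (ρ.comp Polynomial.C) hid X' hX2
      (fun κ hκ r => hX1 κ hκ _ ⟨Polynomial.C r, rfl⟩) (fun j => (t j : AddMonoid.End M))
      (fun j => htI j)
    apply Subtype.val_injective
    rw [AddSubmonoidClass.coe_finsetSum]
    change _ = (0 : AddMonoid.End M)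
    rw [← h1]
    apply Finset.sum_congr rfl
    intro π _
    have h2 : (((List.ofFn fun k => t (π k)).prod : T) : AddMonoid.End M) =
        (List.ofFn fun k => (t (π k) : AddMonoid.End M)).prod := by
      have := map_list_prod T.subtype (List.ofFn fun k => t (π k))
      rw [List.map_ofFn] at this
      exact this
    rw [← h2]
    rfl
  let iD : DivisionRing (Module.End T M) := Module.End.instDivisionRing
  let iF : Field (Module.End T M) := { iD with mul_comm := hcomm }
  have hfin : Module.Finite (Module.End T M) M :=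
    finite_of_identityJ nn π0 h0 {t : T | (t : AddMonoid.End M) ∈ TI}
      (fun u hu t => hright _ hu _ t.2) htrans hidT
  let toT : C →+* T := (ρ.comp Polynomial.C).codRestrict T hCT
  let ψ : C →+* Module.End (Module.End T M) M := (Module.toModuleEnd (Module.End T M) M).comp toT
  obtain ⟨s, Θ, hΘ⟩ := matrix_of_comm ψ β (by
    intro k hk
    obtain ⟨v, hv⟩ := hM k
    apply hv
    have h1 : ∀ j, (ψ β ^ j) v = (Polynomial.C β : C[X]) ^ j • v := by
      intro j
      induction j with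
      | zero => rw [pow_zero, pow_zero, one_smul]; rfl
      | succ j ih =>
        rw [pow_succ', pow_succ', mul_smul, ← ih]
        rfl
    rw [← h1, hk]
    rfl)
  exact ⟨_, iF, s, Θ, hΘ⟩

theorem taskMat : TaskMat := by
  intro C _ I hI β hβI hβ
  obtain ⟨m, nn, π0, h0, hid⟩ := hI
  exact exists_matrixJ I nn π0 h0 hid hβI hβ

end Pool.Agent.H66R3.CR
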